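import Pool.Agent.Y472.K.Defs

/-!
# Turk's head knots: the matrix entries for the exponents `1` and `-1`
-/

set_option autoImplicit false
set_option linter.all false

namespace Pool.Agent.Y261.TK

open Finset Filter Topology Pool.Agent.Y472 Pool.Agent.Y472.K
open Pool.Agent.W711.HT (vN Sd)
open scoped Real

/-! ### the recursion of divided differences -/

theorem nw_erase {s : Finset ℕ} {u : ℕ → ℂ} {k a : ℕ} (ha : a ∈ s) (hka : k ≠ a)
    (hu : u k ≠ u a) :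
    Lagrange.nodalWeight s u k * (u k - u a) = Lagrange.nodalWeight (s.erase a) u k := by
  unfold Lagrange.nodalWeight
  have h1 : a ∈ s.erase k := mem_erase.2 ⟨Ne.symm hka, ha⟩
  rw [← mul_prod_erase _ _ h1, erase_right_comm]
  have h2 : u k - u a ≠ 0 := sub_ne_zero.2 hu
  field_simp

theorem dd_erase {s : Finset ℕ} {u : ℕ → ℂ} {a : ℕ} (ha : a ∈ s) (hu : Set.InjOn u (s : Set ℕ))
    (f : ℕ → ℂ) :
    ∑ k ∈ s.erase a, Lagrange.nodalWeight (s.erase a) u k * f k =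
      ∑ k ∈ s, Lagrange.nodalWeight s u k * (u k - u a) * f k := by
  rw [← add_sum_erase _ _ ha, sub_self, mul_zero, zero_mul, zero_add]
  refine sum_congr rfl fun k hk => ?_
  have h1 := ne_of_mem_erase hk
  rw [nw_erase ha h1 fun h => h1 (hu (mem_coe.2 (mem_of_mem_erase hk)) (mem_coe.2 ha) h)]

theorem dd_rec {u f : ℕ → ℂ} {i j : ℕ} (hij : i ≤ j)
    (hu : Set.InjOn u (Icc i (j + 1) : Finset ℕ)) :
    (u (j + 1) - u i) * ∑ k ∈ Icc i (j + 1), Lagrange.nodalWeight (Icc i (j + 1)) u k * f k =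
      ∑ k ∈ Icc (i + 1) (j + 1), Lagrange.nodalWeight (Icc (i + 1) (j + 1)) u k * f k -
      ∑ k ∈ Icc i j, Lagrange.nodalWeight (Icc i j) u k * f k := by
  have h1 : (Icc i (j + 1)).erase (j + 1) = Icc i j := by
    ext x
    rw [mem_erase, mem_Icc, mem_Icc]
    omega
  have h2 : (Icc i (j + 1)).erase i = Icc (i + 1) (j + 1) := by
    ext x
    rw [mem_erase, mem_Icc, mem_Icc]
    omega
  have h3 := dd_erase (a := j + 1) (mem_Icc.2 ⟨by omega, le_rfl⟩) hu f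
  have h4 := dd_erase (a := i) (mem_Icc.2 ⟨le_rfl, by omega⟩) hu f
  rw [h1] at h3
  rw [h2] at h4
  rw [h3, h4, ← sum_sub_distrib, mul_sum]
  refine sum_congr rfl fun k _ => ?_
  ring

/-! ### the closed form -/

/-- the generic parameter -/
noncomputable def zz (w l : ℂ) (s : ℕ) : ℂ := l ^ 2 / (w ^ s) ^ 2

/-- the closed form -/
noncomputable def FF (w l : ℂ) (i m : ℕ) : ℂ :=
  se w l i / ∏ t ∈ range m, (w ^ t * cb (w ^ (t + 1)) * (zz w l (i + t + 1) - 1))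

theorem zp (w : ℂ) (k : ℕ) : w ^ (-1 - 2 * (k : ℤ)) = (w * (w ^ k) ^ 2)⁻¹ := by
  have : (-1 - 2 * (k : ℤ)) = -((1 + k * 2 : ℕ) : ℤ) := by push_cast; ring
  rw [this, zpow_neg, zpow_natCast, pow_add, pow_one, pow_mul]

theorem se_succ {w l : ℂ} (hw : w ≠ 0) (hl : l ≠ 0) (i : ℕ) :
    se w l (i + 1) = -(se w l i / zz w l (i + 1)) := by
  rw [se, se, zp, zp, zz]
  have h1 : w ^ i ≠ 0 := pow_ne_zero _ hw
  have h2 : l ^ i ≠ 0 := pow_ne_zero _ hl
  have e1 : w ^ ((i + 1) * (i + 1) + (i + 1) + 1) = w ^ (i * i + i + 1) * (w ^ (i + 1)) ^ 2 := by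
    rw [← pow_mul, ← pow_add]
    congr 1
    ring
  rw [e1, pow_succ (-1 : ℂ) i, pow_succ l i, pow_succ w i]
  field_simp

theorem uu_sub {w l : ℂ} (hw : w ≠ 0) (hl : l ≠ 0) (i m : ℕ) :
    uu w l (i + m) - uu w l i = -(cb (w ^ m) * cb (l ^ 2 / (w * (w ^ i) ^ 2 * w ^ m))) := by
  rw [uu, uu, zp, zp, cb, cb]
  have h1 : w ^ i ≠ 0 := pow_ne_zero _ hw
  have h2 : w ^ m ≠ 0 := pow_ne_zero _ hw
  rw [pow_add]
  field_simp
  ring

theorem zz_sub {w l : ℂ} (hw : w ≠ 0) (hl : l ≠ 0) (i m : ℕ) :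
    w ^ m * ((zz w l (i + 1))⁻¹ - zz w l (i + m + 1)) =
      -cb (l ^ 2 / (w * (w ^ i) ^ 2 * w ^ (m + 1))) := by
  rw [zz, zz, cb]
  have h1 : w ^ i ≠ 0 := pow_ne_zero _ hw
  have h2 : w ^ m ≠ 0 := pow_ne_zero _ hw
  rw [pow_succ w (i + m), pow_succ w i, pow_succ w m, pow_add]
  field_simp
  ring

/-- the conditions on the parameters -/
structure Gen (N : ℕ) (w l : ℂ) : Prop where
  w0 : w ≠ 0
  l0 : l ≠ 0
  h1 : ∀ t, 0 < t → t < N → cb (w ^ t) ≠ 0
  h2 : ∀ s, zz w l s ≠ 1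
  h3 : ∀ i m, cb (l ^ 2 / (w * (w ^ i) ^ 2 * w ^ m)) ≠ 0

theorem uu_inj {N : ℕ} {w l : ℂ} (h : Gen N w l) {i j : ℕ} (hij : i < j) (hj : j < N) :
    uu w l i ≠ uu w l j := by
  intro he
  obtain ⟨m, rfl⟩ : ∃ m, j = i + m := ⟨j - i, by omega⟩
  have h1 := uu_sub h.w0 h.l0 i m
  rw [he, sub_self] at h1
  have h2 := neg_eq_zero.1 h1.symm
  rcases mul_eq_zero.1 h2 with h3 | h3
  · exact h.h1 m (by omega) (by omega) h3
  · exact h.h3 i m h3

theorem uu_injOn {N : ℕ} {w l : ℂ} (h : Gen N w l) {i j : ℕ} (hj : j < N) :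
    Set.InjOn (uu w l) (Icc i j : Finset ℕ) := by
  intro a ha b hb hab
  rw [mem_coe, mem_Icc] at ha hb
  rcases lt_trichotomy a b with h1 | h1 | h1
  · exact absurd hab (uu_inj h h1 (by omega))
  · exact h1
  · exact absurd hab.symm (uu_inj h h1 (by omega))

theorem gd_one {N : ℕ} {w l : ℂ} (h : Gen N w l) : ∀ m i : ℕ, i + m < N →
    gd w l 1 i (i + m) = FF w l i m := by
  intro m
  induction m with
  | zero =>
    intro i _
    rw [FF, gd, add_zero, Icc_self, sum_singleton, Lagrange.nodalWeight]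
    simp
  | succ m ih =>
    intro i hi
    have h1 := ih i (by omega)
    have h2 := ih (i + 1) (by omega)
    rw [show i + 1 + m = i + m + 1 by ring] at h2
    have h3 := dd_rec (u := uu w l) (f := fun k => se w l k ^ (1 : ℤ)) (i := i) (j := i + m)
      (by omega) (uu_injOn h (by omega))
    have h4 : (uu w l (i + m + 1) - uu w l i) * gd w l 1 i (i + m + 1) =
        gd w l 1 (i + 1) (i + m + 1) - gd w l 1 i (i + m) := h3
    rw [h1, h2] at h4
    have h5 := uu_sub h.w0 h.l0 i (m + 1)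
    rw [show i + (m + 1) = i + m + 1 by ring] at h5 ⊢
    have hne : uu w l (i + m + 1) - uu w l i ≠ 0 :=
      sub_ne_zero.2 (uu_inj h (i := i) (j := i + m + 1) (by omega) (by omega)).symm
    apply mul_left_cancel₀ hne
    have h6 := zz_sub h.w0 h.l0 i m
    have h7 : cb (l ^ 2 / (w * (w ^ i) ^ 2 * w ^ (m + 1))) =
        -(w ^ m * ((zz w l (i + 1))⁻¹ - zz w l (i + m + 1))) := by rw [h6, neg_neg]
    rw [h4, h5, h7]
    have f1 : ∏ t ∈ range m, (w ^ t * cb (w ^ (t + 1)) * (zz w l (i + t + 1) - 1)) =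
        (∏ t ∈ range m, (w ^ t * cb (w ^ (t + 1)))) * ∏ t ∈ range m, (zz w l (i + t + 1) - 1) :=
      prod_mul_distrib
    have f2 : ∏ t ∈ range m, (w ^ t * cb (w ^ (t + 1)) * (zz w l (i + 1 + t + 1) - 1)) =
        (∏ t ∈ range m, (w ^ t * cb (w ^ (t + 1)))) * ∏ t ∈ range m, (zz w l (i + 1 + t + 1) - 1) :=
      prod_mul_distrib
    have f3 : (∏ t ∈ range m, (zz w l (i + t + 1) - 1)) * (zz w l (i + m + 1) - 1) =
        (∏ t ∈ range m, (zz w l (i + 1 + t + 1) - 1)) * (zz w l (i + 1) - 1) := by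
      rw [← prod_range_succ (fun t => zz w l (i + t + 1) - 1), prod_range_succ']
      rw [add_zero]
      congr 1
      refine prod_congr rfl fun t _ => ?_
      rw [show i + (t + 1) + 1 = i + 1 + t + 1 by ring]
    rw [FF, FF, FF, prod_range_succ, f1, f2, se_succ h.w0 h.l0]
    have n1 : (∏ t ∈ range m, (w ^ t * cb (w ^ (t + 1)))) ≠ 0 := by
      rw [prod_ne_zero_iff]
      intro t ht
      exact mul_ne_zero (pow_ne_zero _ h.w0) (h.h1 _ (by omega) (by have := mem_range.1 ht; omega))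
    have n2 : ∀ k, zz w l k - 1 ≠ 0 := fun k => sub_ne_zero.2 (h.h2 k)
    have n3 : (∏ t ∈ range m, (zz w l (i + t + 1) - 1)) ≠ 0 := by
      rw [prod_ne_zero_iff]
      exact fun t _ => n2 _
    have n4 : zz w l (i + 1) ≠ 0 :=
      div_ne_zero (pow_ne_zero _ h.l0) (pow_ne_zero _ (pow_ne_zero _ h.w0))
    have n5 : w ^ m ≠ 0 := pow_ne_zero _ h.w0
    have n6 : cb (w ^ (m + 1)) ≠ 0 := h.h1 _ (by omega) (by omega)
    have n7 := n2 (i + m + 1)
    have n8 := n2 (i + 1)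
    have f4 : ∏ t ∈ range m, (zz w l (i + 1 + t + 1) - 1) =
        (∏ t ∈ range m, (zz w l (i + t + 1) - 1)) * (zz w l (i + m + 1) - 1) /
          (zz w l (i + 1) - 1) := by
      rw [f3, mul_div_assoc, div_self n8, mul_one]
    rw [f4]
    set A := ∏ t ∈ range m, (w ^ t * cb (w ^ (t + 1)))
    set Z := ∏ t ∈ range m, (zz w l (i + t + 1) - 1)
    set z1 := zz w l (i + 1)
    set zm := zz w l (i + m + 1)
    set c := cb (w ^ (m + 1))
    field_simp
    ring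

/-! ### the exponent `-1` -/

theorem se_inv (w l : ℂ) (i : ℕ) : se w⁻¹ l⁻¹ i = (se w l i)⁻¹ := by
  rw [se, se, mul_inv, mul_inv, inv_zpow, inv_pow]
  congr 2
  rw [← inv_pow, inv_neg, inv_one]

theorem uu_inv (w l : ℂ) (i : ℕ) : uu w⁻¹ l⁻¹ i = uu w l i := by
  rw [uu, uu, inv_pow, inv_zpow, mul_inv, inv_inv, inv_inv, mul_inv, add_comm]

theorem gd_neg (w l : ℂ) (i j : ℕ) : gd w l (-1) i j = gd w⁻¹ l⁻¹ 1 i j := by
  rw [gd, gd]
  have h1 : uu w⁻¹ l⁻¹ = uu w l := funext fun k => uu_inv w l k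
  rw [h1]
  refine sum_congr rfl fun k _ => ?_
  rw [se_inv, zpow_neg_one, zpow_one]

/-! ### the conditions -/

theorem cb_ne {z : ℂ} (h0 : z ≠ 0) (h1 : ‖z‖ ≠ 1) : cb z ≠ 0 := by
  intro h
  rw [cb, sub_eq_zero] at h
  have h2 : z * z = 1 := by
    nth_rewrite 1 [h]
    exact inv_mul_cancel₀ h0
  have h3 : ‖z‖ * ‖z‖ = 1 := by rw [← norm_mul, h2, norm_one]
  have h4 : 0 ≤ ‖z‖ := norm_nonneg z
  exact h1 (by nlinarith)

/-- the root of unity -/
structure RR (N : ℕ) (w s : ℂ) : Prop where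
  nrm : ‖w‖ = 1
  ss : s ^ 2 = 1
  hcb : ∀ k : ℕ, cb (w ^ k) = 2 * Complex.I * s * (Real.sin (π * k / N) : ℂ)

theorem sin_pos {N t : ℕ} (h0 : 0 < t) (h1 : t < N) : 0 < Real.sin (π * t / N) := by
  have hN : (0 : ℝ) < N := by exact_mod_cast (lt_of_le_of_lt (Nat.zero_le _) h1)
  have ht : (0 : ℝ) < t := by exact_mod_cast h0
  have ht' : (t : ℝ) < N := by exact_mod_cast h1
  apply Real.sin_pos_of_pos_of_lt_pi
  · positivity
  · rw [div_lt_iff₀ hN]
    exact mul_lt_mul_of_pos_left ht' Real.pi_pos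

section
variable {N : ℕ} {w s : ℂ}

theorem RR.w0 (h : RR N w s) : w ≠ 0 := by
  intro h0
  have := h.nrm
  rw [h0, norm_zero] at this
  exact zero_ne_one this

theorem RR.s0 (h : RR N w s) : s ≠ 0 := by
  intro h0
  have := h.ss
  rw [h0] at this
  norm_num at this

theorem RR.cbne (h : RR N w s) {t : ℕ} (h0 : 0 < t) (h1 : t < N) : cb (w ^ t) ≠ 0 := by
  rw [h.hcb]
  refine mul_ne_zero (mul_ne_zero (mul_ne_zero two_ne_zero Complex.I_ne_zero) h.s0) ?_
  exact_mod_cast (sin_pos h0 h1).ne'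

theorem RR.gen (h : RR N w s) {l : ℂ} (hl : l ≠ 0) (hl1 : ‖l‖ ≠ 1) : Gen N w l := by
  have h1 : ‖l‖ ^ 2 ≠ 1 := by
    intro h2
    apply hl1
    have := norm_nonneg l
    nlinarith
  refine ⟨h.w0, hl, fun t => h.cbne, fun k hk => ?_, fun i m => ?_⟩
  · apply h1
    have := congrArg norm hk
    rw [zz, norm_div, norm_pow, norm_pow, norm_pow, h.nrm, one_pow, one_pow, div_one, norm_one] at this
    exact this
  · apply cb_ne
    · exact div_ne_zero (pow_ne_zero _ hl) (mul_ne_zero (mul_ne_zero h.w0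
        (pow_ne_zero _ (pow_ne_zero _ h.w0))) (pow_ne_zero _ h.w0))
    · rw [norm_div, norm_mul, norm_mul, norm_pow, norm_pow, norm_pow, norm_pow, h.nrm, one_pow,
        one_pow, one_pow, mul_one, mul_one, div_one]
      exact h1

/-- the factors at `l = -1` -/
theorem RR.fac (h : RR N w s) (i t : ℕ) :
    w ^ t * cb (w ^ (t + 1)) * (zz w (-1) (i + t + 1) - 1) =
      (w ^ (i + 1))⁻¹ * (((2 * Real.sin (π * (t + 1) / N) : ℝ) : ℂ) *
        ((2 * Real.sin (π * ((i + t : ℕ) + 1) / N) : ℝ) : ℂ)) := by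
  have h0 := h.w0
  have e1 : zz w (-1) (i + t + 1) - 1 = -((w ^ (i + t + 1))⁻¹ * cb (w ^ (i + t + 1))) := by
    rw [zz, cb]
    have : w ^ (i + t + 1) ≠ 0 := pow_ne_zero _ h0
    field_simp
    ring
  have e2 : w ^ t * (w ^ (i + t + 1))⁻¹ = (w ^ (i + 1))⁻¹ := by
    have h1 : w ^ t ≠ 0 := pow_ne_zero _ h0
    have h2 : w ^ i ≠ 0 := pow_ne_zero _ h0
    rw [show i + t + 1 = (i + 1) + t by ring, pow_add w (i + 1) t]
    field_simp
  rw [e1]
  have e3 : w ^ t * cb (w ^ (t + 1)) * -((w ^ (i + t + 1))⁻¹ * cb (w ^ (i + t + 1))) =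
      -((w ^ t * (w ^ (i + t + 1))⁻¹) * (cb (w ^ (t + 1)) * cb (w ^ (i + t + 1)))) := by ring
  rw [e3, e2, h.hcb, h.hcb]
  have hI : Complex.I ^ 2 = -1 := Complex.I_sq
  have e4 : 2 * Complex.I * s * (Real.sin (π * ((t + 1 : ℕ) : ℝ) / N) : ℂ) *
      (2 * Complex.I * s * (Real.sin (π * ((i + t + 1 : ℕ) : ℝ) / N) : ℂ)) =
      -(2 * (Real.sin (π * ((t + 1 : ℕ) : ℝ) / N) : ℂ) *
        (2 * (Real.sin (π * ((i + t + 1 : ℕ) : ℝ) / N) : ℂ))) := by
    have : 2 * Complex.I * s * (Real.sin (π * ((t + 1 : ℕ) : ℝ) / N) : ℂ) *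
      (2 * Complex.I * s * (Real.sin (π * ((i + t + 1 : ℕ) : ℝ) / N) : ℂ)) =
      Complex.I ^ 2 * s ^ 2 * (2 * (Real.sin (π * ((t + 1 : ℕ) : ℝ) / N) : ℂ) *
        (2 * (Real.sin (π * ((i + t + 1 : ℕ) : ℝ) / N) : ℂ))) := by ring
    rw [this, hI, h.ss]
    ring
  rw [e4]
  push_cast
  ring

theorem Sd_ne {i : ℕ} (hi : i < N) : Sd N i ≠ 0 := by
  rw [Sd, prod_ne_zero_iff]
  intro k hk
  have h1 := sin_pos (N := N) (t := k + 1) (by omega) (by have := mem_range.1 hk; omega)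
  push_cast at h1
  positivity

theorem Sd_add (i m : ℕ) : Sd N (i + m) =
    Sd N i * ∏ t ∈ range m, (2 * Real.sin (π * ((i + t : ℕ) + 1) / N)) := by
  rw [Sd, Sd, prod_range_add]

theorem se_m1 (w : ℂ) (i : ℕ) : se w (-1) i = -((-1) ^ i * w ^ (i * i + i + 1)) := by
  rw [se]
  have : (-1 : ℂ) ^ (-1 - 2 * (i : ℤ)) = -1 := by
    rw [zp, ← pow_mul, mul_comm i 2, pow_mul]
    norm_num
  rw [this]
  ring

/-- the value at `l = -1` -/
theorem RR.val (h : RR N w s) {i m : ℕ} (hm : i + m < N) : FF w (-1) i m =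
    -w * ((-1) ^ i * w ^ ((i + m) * i + (i + m)) /
      ((Sd N m : ℂ) * ((Sd N (i + m) : ℂ) / Sd N i))) := by
  have h0 := h.w0
  rw [FF, se_m1]
  have e1 : ∏ t ∈ range m, (w ^ t * cb (w ^ (t + 1)) * (zz w (-1) (i + t + 1) - 1)) =
      ((w ^ (i + 1))⁻¹) ^ m * ((Sd N m : ℂ) * ((Sd N (i + m) : ℂ) / Sd N i)) := by
    rw [prod_congr rfl fun t _ => h.fac i t, prod_mul_distrib, prod_const, card_range,
      prod_mul_distrib, Sd_add]
    have h1 : (Sd N i : ℂ) ≠ 0 := by exact_mod_cast Sd_ne (show i < N by omega)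
    congr 1
    rw [Sd]
    push_cast
    rw [mul_comm (Sd N i : ℂ), mul_div_assoc, div_self h1, mul_one]
  rw [e1]
  have h2 : (Sd N (i + m) : ℂ) ≠ 0 := by exact_mod_cast Sd_ne hm
  have h3 : (Sd N m : ℂ) ≠ 0 := by exact_mod_cast Sd_ne (show m < N by omega)
  have h1 : (Sd N i : ℂ) ≠ 0 := by exact_mod_cast Sd_ne (show i < N by omega)
  have h4 : w ^ ((i + m) * i + (i + m)) * w = w ^ (i * i + i + 1) * (w ^ (i + 1)) ^ m := by
    rw [← pow_mul, ← pow_add, ← pow_succ]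
    congr 1
    ring
  have h5 : (w ^ (i + 1)) ^ m ≠ 0 := pow_ne_zero _ (pow_ne_zero _ h0)
  rw [inv_pow]
  have h6 : -w * ((-1) ^ i * w ^ ((i + m) * i + (i + m)) /
      ((Sd N m : ℂ) * ((Sd N (i + m) : ℂ) / Sd N i))) =
      -((-1) ^ i * (w ^ ((i + m) * i + (i + m)) * w)) /
      ((Sd N m : ℂ) * ((Sd N (i + m) : ℂ) / Sd N i)) := by ring
  rw [h6, h4]
  field_simp

/-- continuity of the closed form -/
theorem RR.cont (h : RR N w s) {i m : ℕ} (hm : i + m < N) :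
    ContinuousAt (fun l => FF w l i m) (-1) := by
  have h0 := h.w0
  have hz : ∀ k, ContinuousAt (fun l => zz w l k) (-1) := by
    intro k
    unfold zz
    fun_prop
  have hs : ContinuousAt (fun l => se w l i) (-1) := by
    unfold se
    refine ContinuousAt.mul (ContinuousAt.mul continuousAt_const ?_) continuousAt_const
    exact continuousAt_zpow₀ _ _ (Or.inl (by norm_num))
  refine ContinuousAt.div hs ?_ ?_
  · refine tendsto_finsetProd _ fun t _ => ?_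
    exact (continuousAt_const.mul ((hz _).sub continuousAt_const)).tendsto
  · rw [prod_ne_zero_iff]
    intro t ht
    rw [h.fac]
    have ht' := mem_range.1 ht
    have h1 := (sin_pos (N := N) (t := t + 1) (by omega) (by omega)).ne'
    have h2 := (sin_pos (N := N) (t := i + t + 1) (by omega) (by omega)).ne'
    push_cast at h1 h2
    refine mul_ne_zero (inv_ne_zero (pow_ne_zero _ h0)) (mul_ne_zero ?_ ?_)
    · exact_mod_cast mul_ne_zero two_ne_zero h1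
    · have : (2 * Real.sin (π * ((i + t : ℕ) + 1) / N) : ℝ) ≠ 0 := by
        push_cast
        exact mul_ne_zero two_ne_zero h2
      exact_mod_cast this

end

theorem rr_pos {N : ℕ} (hN : 2 ≤ N) : RR N (vN N) 1 := by
  have e : (π * Complex.I / N : ℂ) = ((π / N : ℝ) : ℂ) * Complex.I := by push_cast; ring
  refine ⟨?_, one_pow _, fun k => ?_⟩
  · rw [vN, e]
    exact Complex.norm_exp_ofReal_mul_I _
  · have h1 : vN N ^ k = Complex.exp (((π * k / N : ℝ) : ℂ) * Complex.I) := by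
      rw [vN, ← Complex.exp_nat_mul]
      congr 1
      push_cast
      ring
    rw [h1, cb, ← Complex.exp_neg, Complex.ofReal_sin, Complex.sin]
    have hI : Complex.I ^ 2 = -1 := Complex.I_sq
    have : 2 * Complex.I * 1 * ((Complex.exp (-((π * k / N : ℝ) : ℂ) * Complex.I) -
        Complex.exp (((π * k / N : ℝ) : ℂ) * Complex.I)) * Complex.I / 2) =
        Complex.I ^ 2 * (Complex.exp (-((π * k / N : ℝ) : ℂ) * Complex.I) -
        Complex.exp (((π * k / N : ℝ) : ℂ) * Complex.I)) := by ring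
    rw [this, hI, neg_mul (((π * k / N : ℝ) : ℂ))]
    ring

theorem rr_neg {N : ℕ} (hN : 2 ≤ N) : RR N (vN N)⁻¹ (-1) := by
  have h := rr_pos hN
  refine ⟨by rw [norm_inv, h.nrm, inv_one], by norm_num, fun k => ?_⟩
  have h1 := h.hcb k
  rw [cb] at h1 ⊢
  rw [inv_pow, inv_inv]
  linear_combination -h1

theorem tendsto_real : Tendsto (fun ε : ℝ => (ε : ℂ)) (𝓝[≠] 0) (𝓝[≠] 0) := by
  refine tendsto_nhdsWithin_iff.mpr ⟨?_, ?_⟩
  · have h : Tendsto (fun ε : ℝ => (ε : ℂ)) (𝓝 0) (𝓝 ((0 : ℝ) : ℂ)) :=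
      Complex.continuous_ofReal.tendsto 0
    rw [Complex.ofReal_zero] at h
    exact h.mono_left nhdsWithin_le_nhds
  · filter_upwards [self_mem_nhdsWithin] with ε hε
    simpa using hε

/-- the limit -/
theorem lim_eq {N : ℕ} {w s : ℂ} (h : RR N w s) {i m : ℕ} (hm : i + m < N) (σ : ℝ) (hσ : σ ≠ 0)
    (g G : ℂ → ℂ) (hG : DifferentiableAt ℂ G 0) (hg : ∀ᶠ ε in 𝓝[≠] (0 : ℂ), G ε = g ε)
    (hgg : ∀ ε : ℝ, ε ≠ 0 → g ε = gd w (-Complex.exp (σ * ε)) 1 i (i + m)) :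
    G 0 = FF w (-1) i m := by
  have h1 : Tendsto (fun ε : ℝ => G (ε : ℂ)) (𝓝[≠] 0) (𝓝 (G 0)) := by
    have h2 : Tendsto G (𝓝[≠] (0 : ℂ)) (𝓝 (G 0)) :=
      hG.continuousAt.tendsto.mono_left nhdsWithin_le_nhds
    exact h2.comp tendsto_real
  have h2 : Tendsto (fun ε : ℝ => FF w (-Complex.exp (σ * ε)) i m) (𝓝[≠] 0)
      (𝓝 (FF w (-1) i m)) := by
    have h3 : Tendsto (fun ε : ℝ => -Complex.exp (σ * ε)) (𝓝[≠] (0 : ℝ)) (𝓝 (-1)) := by
      have h4 : Continuous fun ε : ℝ => -Complex.exp (σ * ε) := by fun_prop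
      have h5 := (h4.tendsto 0).mono_left (nhdsWithin_le_nhds (s := {0}ᶜ))
      simpa using h5
    exact (h.cont hm).tendsto.comp h3
  have h3 : (fun ε : ℝ => G (ε : ℂ)) =ᶠ[𝓝[≠] 0] fun ε : ℝ => FF w (-Complex.exp (σ * ε)) i m := by
    filter_upwards [tendsto_real.eventually hg, self_mem_nhdsWithin] with ε e1 e2
    have e3 : ε ≠ 0 := e2
    rw [e1, hgg ε e3]
    apply gd_one _ m i hm
    apply h.gen
    · exact neg_ne_zero.2 (Complex.exp_ne_zero _)
    · rw [norm_neg, Complex.norm_exp]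
      intro h5
      rw [Real.exp_eq_one_iff] at h5
      have h6 : ((σ : ℂ) * (ε : ℂ)).re = σ * ε := by
        rw [← Complex.ofReal_mul, Complex.ofReal_re]
      rw [h6] at h5
      exact (mul_ne_zero hσ e3) h5
  exact tendsto_nhds_unique (h1.congr' h3) h2

theorem cj1 : S_CJ1 := by
  intro hG N hN
  obtain ⟨c, hc, hcG⟩ := hG N hN
  have h1 := rr_pos hN
  have h2 := rr_neg hN
  have hc1 : c 1 ≠ 0 := by
    intro h
    have := hc 1
    rw [h, norm_zero] at this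
    exact zero_ne_one this
  have hc2 : c (-1) ≠ 0 := by
    intro h
    have := hc (-1)
    rw [h, norm_zero] at this
    exact zero_ne_one this
  refine ⟨(c 1)⁻¹ * -vN N, (c (-1))⁻¹ * -(vN N)⁻¹, ?_, ?_, fun j i hji hi => ⟨?_, ?_⟩⟩
  · rw [norm_mul, norm_inv, hc, norm_neg, h1.nrm, inv_one, one_mul]
  · rw [norm_mul, norm_inv, hc, norm_neg, h2.nrm, inv_one, one_mul]
  · obtain ⟨m, rfl⟩ : ∃ m, i = j + m := ⟨i - j, by omega⟩
    obtain ⟨G, g1, g2, g3⟩ := hcG 1 j (j + m) hji hi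
    have e1 := lim_eq h1 hi 1 one_ne_zero (fun ε => gd (vN N) (-Complex.exp ε) 1 j (j + m)) G g1 g3
      (fun ε _ => by rw [Complex.ofReal_one, one_mul])
    rw [g2, h1.val hi] at e1
    rw [show j + m - j = m by omega, mul_assoc, ← neg_mul_eq_neg_mul]
    rw [eq_inv_mul_iff_mul_eq₀ hc1, e1]
    rw [← neg_mul_eq_neg_mul]
    congr 4
  · obtain ⟨m, rfl⟩ : ∃ m, i = j + m := ⟨i - j, by omega⟩
    obtain ⟨G, g1, g2, g3⟩ := hcG (-1) j (j + m) hji hi
    have e1 := lim_eq h2 hi (-1) (by norm_num) (fun ε => gd (vN N) (-Complex.exp ε) (-1) j (j + m))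
      G g1 g3 (fun ε _ => by
        show gd (vN N) (-Complex.exp ε) (-1) j (j + m) = _
        rw [gd_neg, inv_neg, ← Complex.exp_neg]
        congr 3
        simp)
    rw [g2, h2.val hi] at e1
    rw [show j + m - j = m by omega, mul_assoc, ← neg_mul_eq_neg_mul]
    rw [eq_inv_mul_iff_mul_eq₀ hc2, e1]
    rw [← neg_mul_eq_neg_mul]
    congr 4
    rw [zpow_neg, inv_pow, ← zpow_natCast]
    congr 2

end Pool.Agent.Y261.TK
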